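import Pool.Agent.Helper18.NF.Stmts3
import Pool.Agent.Helper95.BSC.ONE

/-!
Module DSF: algebraic values over a finite extension of `k` give algebraic values over `k`.
-/

set_option autoImplicit false

namespace Pool.Agent.Helper18.NF

open Pool.Agent.Helper14.BSC Polynomial

theorem dsf_int {k k' : Type} [Field k] [Field k'] [Algebra k k'] {p : ℕ} [Fact p.Prime]
    (E₀ : IntermediateField ℚ_[p] ℂ_[p]) (hE₀ : FiniteDimensional ℚ_[p] E₀) (σ' : k' →+* ℂ_[p])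
    (hσ : ∀ c : k, σ' (algebraMap k k' c) ∈ E₀) (b : k') (hb : IsIntegral k b) :
    IsIntegral ℚ_[p] (σ' b) := by
  obtain ⟨P, hP, hPb⟩ := hb
  obtain ⟨τ, hτ⟩ : ∃ τ : k →+* E₀, ∀ c, ((τ c : E₀) : ℂ_[p]) = σ' (algebraMap k k' c) :=
    ⟨(σ'.comp (algebraMap k k')).codRestrict E₀ hσ, fun c => rfl⟩
  have h1 : IsIntegral E₀ (σ' b) := by
    refine ⟨P.map τ, hP.map τ, ?_⟩
    rw [Polynomial.eval₂_map]
    have h2 : (algebraMap E₀ ℂ_[p]).comp τ = σ'.comp (algebraMap k k') := by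
      ext c
      exact hτ c
    rw [h2, ← Polynomial.hom_eval₂, hPb, map_zero]
  have : Algebra.IsIntegral ℚ_[p] E₀ := Algebra.IsIntegral.of_finite ℚ_[p] E₀
  exact isIntegral_trans (σ' b) h1

theorem dsf_fin {k k' : Type} [Field k] [Field k'] [Algebra k k'] [FiniteDimensional k k'] {p : ℕ}
    [Fact p.Prime] (σ' : k' →+* ℂ_[p]) (h : FinI (σ'.comp (algebraMap k k'))) : FinI σ' := by
  classical
  obtain ⟨E₀, hE₀, hσ⟩ := h
  obtain ⟨s, hs⟩ : ∃ s : Finset k', Submodule.span k (s : Set k') = ⊤ := Module.Finite.fg_top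
  have hint : ∀ x ∈ (σ' '' (s : Set k')), IsIntegral ℚ_[p] x := by
    rintro x ⟨b, _, rfl⟩
    exact dsf_int E₀ hE₀ σ' hσ b (Algebra.IsIntegral.isIntegral b)
  have hfs : Finite (σ' '' (s : Set k')) := (s.finite_toSet.image σ').to_subtype
  have h2 : FiniteDimensional ℚ_[p] (IntermediateField.adjoin ℚ_[p] (σ' '' (s : Set k'))) :=
    IntermediateField.finiteDimensional_adjoin hint
  refine ⟨E₀ ⊔ IntermediateField.adjoin ℚ_[p] (σ' '' (s : Set k')), inferInstance, ?_⟩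
  intro x
  have hx : x ∈ Submodule.span k (s : Set k') := by rw [hs]; exact Submodule.mem_top
  induction hx using Submodule.span_induction with
  | mem b hb =>
    exact (le_sup_right : _ ≤ E₀ ⊔ IntermediateField.adjoin ℚ_[p] (σ' '' (s : Set k')))
      (IntermediateField.subset_adjoin _ _ ⟨b, hb, rfl⟩)
  | zero => rw [map_zero]; exact zero_mem _
  | add a b _ _ ha hb => rw [map_add]; exact add_mem ha hb
  | smul c b _ hb =>
    rw [Algebra.smul_def, map_mul]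
    exact mul_mem ((le_sup_left : E₀ ≤ E₀ ⊔ IntermediateField.adjoin ℚ_[p] (σ' '' (s : Set k')))
      (hσ c)) hb

theorem dsf_ext {k k' : Type} [Field k] [Field k'] [Algebra k k'] [FiniteDimensional k k'] {p : ℕ}
    [Fact p.Prime] (σ : k →+* ℂ_[p]) : ∃ σ' : k' →+* ℂ_[p], σ'.comp (algebraMap k k') = σ := by
  letI := σ.toAlgebra
  obtain ⟨τ⟩ : Nonempty (k' →ₐ[k] ℂ_[p]) := ⟨IsAlgClosed.lift⟩
  refine ⟨τ.toRingHom, ?_⟩
  ext c
  exact τ.commutes c

theorem dsf_dvd {k k' : Type} [Field k] [Field k'] [Algebra k k'] [FiniteDimensional k k']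
    (F₁ : k'[X]) (hF : F₁ ≠ 0) : ∃ F : k[X], F ≠ 0 ∧ F₁ ∣ F.map (algebraMap k k') := by
  obtain ⟨K, hK⟩ : ∃ K, K = AlgebraicClosure k' := ⟨_, rfl⟩
  have hs : (F₁.map (algebraMap k' (AlgebraicClosure k'))).Splits := IsAlgClosed.splits _
  have hlin : ∀ x : AlgebraicClosure k', ∃ G : k[X], G ≠ 0 ∧
      (X - C x) ∣ G.map (algebraMap k (AlgebraicClosure k')) := by
    intro x
    have hx1 : IsIntegral k' x := IsAlgebraic.isIntegral ((AlgebraicClosure.isAlgebraic k').isAlgebraic x)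
    have : Algebra.IsIntegral k k' := Algebra.IsIntegral.of_finite k k'
    have hx : IsIntegral k x := isIntegral_trans x hx1
    refine ⟨minpoly k x, minpoly.ne_zero hx, ?_⟩
    rw [dvd_iff_isRoot, IsRoot, eval_map, ← aeval_def, minpoly.aeval]
  have key : ∀ s : Multiset (AlgebraicClosure k'), ∃ G : k[X], G ≠ 0 ∧
      (s.map fun x => (X - C x)).prod ∣ G.map (algebraMap k (AlgebraicClosure k')) := by
    intro s
    induction s using Multiset.induction with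
    | empty => exact ⟨1, one_ne_zero, by simp⟩
    | cons a s ih =>
      obtain ⟨G, hG, hd⟩ := ih
      obtain ⟨G', hG', hd'⟩ := hlin a
      refine ⟨G' * G, mul_ne_zero hG' hG, ?_⟩
      rw [Multiset.map_cons, Multiset.prod_cons, Polynomial.map_mul]
      exact mul_dvd_mul hd' hd
  obtain ⟨G, hG, hd⟩ := key (F₁.map (algebraMap k' (AlgebraicClosure k'))).roots
  refine ⟨G, hG, ?_⟩
  rw [← Polynomial.map_dvd_map' (algebraMap k' (AlgebraicClosure k')), Polynomial.map_map,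
    ← IsScalarTower.algebraMap_eq k k' (AlgebraicClosure k')]
  have hF' : F₁.map (algebraMap k' (AlgebraicClosure k')) ≠ 0 := by
    rw [Ne, Polynomial.map_eq_zero]
    exact hF
  rw [hs.eq_prod_roots]
  have hu : IsUnit (C (F₁.map (algebraMap k' (AlgebraicClosure k'))).leadingCoeff) := by
    rw [isUnit_C]
    exact isUnit_iff_ne_zero.2 (leadingCoeff_ne_zero.2 hF')
  exact (hu.mul_left_dvd).2 hd

theorem st_DSF (hZER : Pool.Agent.Helper14.BSC.ST_ZER) (hDEP : Pool.Agent.Helper14.BSC.ST_DEP)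
    (hRK : Pool.Agent.Helper14.BSC.ST_RK) (hBOT : Pool.Agent.Helper14.BSC.ST_BOT)
    (hRPL : Pool.Agent.Helper22.TW.ST_RPL) (hUNQ : Pool.Agent.Helper22.TW.ST_UNQ) : ST_DSF := by
  intro k k' Ω _ _ _ _ _ _ _ _ _ _ _ D D' hfix hdep f' hf' F' hF' hRF' x hx
  have hxfix : ∀ g, D.s g (x : Ω) = x := fun g => x.2 g (fun a ha => absurd ha (Set.notMem_empty a))
  obtain ⟨x', hx'⟩ : ∃ x' : LL D', (x' : Ω) = (x : Ω) :=
    ⟨⟨(x : Ω), fun g _ => hfix _ hxfix g⟩, rfl⟩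
  have hNC : NC D' x' := by
    intro c hc
    have h1 : (x : Ω) = algebraMap k' Ω c := by
      rw [← hx', hc]
      rfl
    have : Algebra.IsIntegral k k' := Algebra.IsIntegral.of_finite k k'
    have h2 : IsIntegral k (x : Ω) := by
      rw [h1]
      exact (Algebra.IsIntegral.isIntegral c).map (IsScalarTower.toAlgHom k k' Ω)
    obtain ⟨a, ha⟩ : ∃ a : Acl k Ω, (a : Ω) = x := ⟨⟨(x : Ω), mem_algebraicClosure_iff.2 h2.isAlgebraic⟩, rfl⟩
    have h3 : a ∈ FF (∅ : Set (Acl k Ω)) := by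
      rw [← coe_mem_NN (D := D), ha]
      exact x.2
    obtain ⟨c0, hc0⟩ := hBOT k Ω a h3
    apply hx c0
    apply Subtype.ext
    rw [← ha, hc0]
    rfl
  obtain ⟨b₀, H₀, hH₀, hRA₀⟩ := hZER k' Ω D' f' F' hf' hF' hRF'
  obtain ⟨F₁, hF₁, hRF₁⟩ := hDEP k' Ω D' (f' - algebraMap k' (LL D') b₀)⁻¹ x' H₀
      (fun c => one_inv hf' b₀ c) hH₀ hRA₀ hdep
  obtain ⟨F, hF, hdvd⟩ := dsf_dvd (k := k) F₁ hF₁
  refine ⟨F, hF, ?_⟩
  intro p _ σ hσ P h
  obtain ⟨σ', rfl⟩ := dsf_ext (k' := k') σ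
  have hσ' : FinI σ' := dsf_fin σ' hσ
  obtain ⟨E', hE', hσE'⟩ := hσ'
  obtain ⟨P', -⟩ := hRK k' Ω D' p σ' E' hE' hσE'
  obtain ⟨P₀, hP₀⟩ := hRPL k k' Ω (algebraMap k k') D D'
    (fun c => (IsScalarTower.algebraMap_apply k k' Ω c).symm) hfix p σ' P'
  obtain ⟨hC, hval⟩ := hUNQ k Ω D p _ P P₀
  have h0 : x ∈ P₀.C := by rw [← hC]; exact h
  obtain ⟨h1, h2⟩ := hP₀ x x' hx'.symm
  have h3 : x' ∈ P'.C := h1.1 h0
  rw [hval x h h0, h2 h0 h3, ← Polynomial.map_map]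
  obtain ⟨Q, hQ⟩ := hdvd
  rw [hQ, Polynomial.map_mul, Polynomial.eval_mul, hRF₁ p σ' ⟨E', hE', hσE'⟩ P' h3, zero_mul]

end Pool.Agent.Helper18.NF
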